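import Pool.Agent.CBG.StmtsA

set_option autoImplicit false
set_option maxSynthPendingDepth 3

open scoped Manifold ContDiff Topology
open Set Filter MeasureTheory

namespace Pool.Agent.CBG.H30

/-- product rule of order one and two -/
lemma prod_rule {n : ℕ} (f B : Ed n → ℝ) (hf : ContDiffAt ℝ 2 f 0) (hB : ContDiffAt ℝ 2 B 0) :
    (∀ v, fderiv ℝ (fun y => f y * B y) 0 v = f 0 * fderiv ℝ B 0 v + B 0 * fderiv ℝ f 0 v) ∧
    (∀ v v', fderiv ℝ (fderiv ℝ (fun y => f y * B y)) 0 v v' =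
      f 0 * fderiv ℝ (fderiv ℝ B) 0 v v' + fderiv ℝ f 0 v * fderiv ℝ B 0 v' +
      (B 0 * fderiv ℝ (fderiv ℝ f) 0 v v' + fderiv ℝ B 0 v * fderiv ℝ f 0 v')) := by
  have hfd : ∀ᶠ y in 𝓝 (0 : Ed n), DifferentiableAt ℝ f y := by
    have := hf.eventually (by simp)
    exact this.mono fun y hy => hy.differentiableAt (by norm_num)
  have hBd : ∀ᶠ y in 𝓝 (0 : Ed n), DifferentiableAt ℝ B y := by
    have := hB.eventually (by simp)
    exact this.mono fun y hy => hy.differentiableAt (by norm_num)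
  have h1 : (fderiv ℝ (fun y => f y * B y)) =ᶠ[𝓝 (0 : Ed n)]
      fun y => f y • fderiv ℝ B y + B y • fderiv ℝ f y := by
    filter_upwards [hfd, hBd] with y h1 h2
    exact fderiv_fun_mul h1 h2
  have hf1 : DifferentiableAt ℝ (fderiv ℝ f) 0 :=
    (hf.fderiv_right (m := 1) (by norm_num)).differentiableAt (by norm_num)
  have hB1 : DifferentiableAt ℝ (fderiv ℝ B) 0 :=
    (hB.fderiv_right (m := 1) (by norm_num)).differentiableAt (by norm_num)
  have hf0 := hfd.self_of_nhds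
  have hB0 := hBd.self_of_nhds
  refine ⟨fun v => ?_, fun v v' => ?_⟩
  · rw [h1.self_of_nhds]
    simp
  · have ha : DifferentiableAt ℝ (fun y => f y • fderiv ℝ B y) 0 := hf0.smul hB1
    have hb : DifferentiableAt ℝ (fun y => B y • fderiv ℝ f y) 0 := hB0.smul hf1
    rw [h1.fderiv_eq, fderiv_fun_add ha hb, fderiv_fun_smul hf0 hB1, fderiv_fun_smul hB0 hf1]
    simp

lemma int_add (f g : ℝ × ℝ → ℝ) (hf : Integrable f mu) (hg : Integrable g mu) :
    ∫ t, (f t + g t) ∂mu = ∫ t, f t ∂mu + ∫ t, g t ∂mu := integral_add hf hg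

lemma two_le_infty : (2 : WithTop ℕ∞) ≤ ∞ := by
  norm_cast

theorem cav (h1 : Mu0Stmt) (h2 : ParStmt) (h3 : UniStmt) : CavStmt := by
  intro n H X hD hconf
  obtain ⟨hprob, hint, htr, hposint⟩ := h1
  set e : Ed n := X (1, 0) with he
  have he0 : e ≠ 0 := by
    intro h
    have : X (1, 0) = X 0 := by rw [← he, h, map_zero]
    have := hD.inj this
    simp at this
  have hN0 : ∀ t, 0 < H t 0 e e := fun t => hD.pos t e he0
  let u : (ℝ × ℝ) × Ed n → ℝ := fun q => (√(H q.1 q.2 e e))⁻¹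
  have hu : ∀ t : ℝ × ℝ, ContDiffAt ℝ ∞ u (t, 0) := by
    intro t
    have h := hD.smooth t
    have h' : ContDiffAt ℝ ∞ (fun q : (ℝ × ℝ) × Ed n => H q.1 q.2 e e) (t, 0) :=
      (h.clm_apply contDiffAt_const).clm_apply contDiffAt_const
    have h'' : ContDiffAt ℝ ∞ (fun q : (ℝ × ℝ) × Ed n => √(H q.1 q.2 e e)) (t, 0) :=
      h'.sqrt (hN0 t).ne'
    exact h''.inv (Real.sqrt_pos.mpr (hN0 t)).ne'
  obtain ⟨hc0, hc1, hc2, hA, hA1, hA2⟩ := h2 n ℝ u hu
  have hut : ∀ t : ℝ × ℝ, ContDiffAt ℝ 2 (fun y => u (t, y)) 0 := by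
    intro t
    have h := ((hu t).of_le (m := 2) two_le_infty)
    exact h.comp (0 : Ed n) (contDiffAt_const.prodMk contDiffAt_id)
  set A : Ed n → ℝ := uav H X with hAdef
  have hAeq : (fun y => ∫ t, u (t, y) ∂mu) = A := rfl
  rw [hAeq] at hA hA1 hA2
  have hupos : ∀ t, 0 < u (t, 0) := fun t => inv_pos.mpr (Real.sqrt_pos.mpr (hN0 t))
  have hApos : 0 < A 0 := hposint (fun t => u (t, 0)) hc0 hupos
  have hAev : ∀ᶠ y in 𝓝 (0 : Ed n), 0 < A y := hA.continuousAt.eventually_const_lt hApos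
  have hB : ContDiffAt ℝ 2 (fun y => (A y)⁻¹) 0 := hA.inv hApos.ne'
  set B : Ed n → ℝ := fun y => (A y)⁻¹ with hBdef
  have hAB : (fun y => A y * B y) =ᶠ[𝓝 (0 : Ed n)] fun _ => 1 := by
    filter_upwards [hAev] with y hy
    exact mul_inv_cancel₀ hy.ne'
  have hH0 : ContDiffAt ℝ 2 (H 0) 0 := by
    have h := ((hD.smooth 0).of_le (m := 2) two_le_infty)
    exact h.comp (0 : Ed n) (contDiffAt_const.prodMk contDiffAt_id)
  have huni := h3 n H X hD
  -- positivity near zero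
  obtain ⟨pA1, pA2⟩ := prod_rule A B hA hB
  refine ⟨fun y => (A y ^ 2 * H 0 y e e)⁻¹ • H 0 y, fun t y => u (t, y) * B y, ?_, ?_, ?_, ?_, ?_,
    ?_, ?_, ?_, ?_, ?_, ?_⟩
  · have hne : A 0 ^ 2 * H 0 0 e e ≠ 0 := mul_ne_zero (pow_ne_zero _ hApos.ne') (hN0 0).ne'
    have h' : ContDiffAt ℝ 2 (fun y : Ed n => H 0 y e e) 0 :=
      (hH0.clm_apply contDiffAt_const).clm_apply contDiffAt_const
    exact (((hA.pow 2).mul h').inv hne).smul hH0
  · intro y v z
    simp only [smul_apply, smul_eq_mul, hD.symm 0 y v z]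
  · intro v hv
    simp only [smul_apply, smul_eq_mul]
    exact mul_pos (inv_pos.mpr (mul_pos (pow_pos hApos 2) (hN0 0))) (hD.pos 0 v hv)
  · filter_upwards [hD.shift, huni, hconf] with y hs hun hcf s
    have hAs : A (y + X s) = A y := by
      have hcont : Continuous (fun t => (√(H t y e e))⁻¹) := by
        have hc : Continuous (fun t => H t y e e) :=
          (hun.2.clm_apply continuous_const).clm_apply continuous_const
        exact (Real.continuous_sqrt.comp hc).inv₀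
          (fun t => (Real.sqrt_pos.mpr (hun.1 t e he0)).ne')
      have := htr ℝ (fun t => (√(H t y e e))⁻¹) hcont
        (fun t => by simp only [hD.per1]) (fun t => by simp only [hD.per2]) s
      show ∫ t, (√(H t (y + X s) (X (1, 0)) (X (1, 0))))⁻¹ ∂mu =
        ∫ t, (√(H t y (X (1, 0)) (X (1, 0))))⁻¹ ∂mu
      simp only [hs]
      exact this
    obtain ⟨c, hc, hcs⟩ := hcf s
    have hH : H 0 (y + X s) = c • H 0 y := by rw [hs 0 s, zero_add, hcs]
    simp only [hAs, hH, smul_apply, smul_eq_mul, smul_smul]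
    congr 1
    have := hun.1 0 e he0
    rw [show A y ^ 2 * (c * H 0 y e e) = c * (A y ^ 2 * H 0 y e e) by ring, mul_inv, mul_comm c⁻¹,
      mul_assoc, inv_mul_cancel₀ hc.ne', mul_one]
  · intro y
    rfl
  · intro t
    exact ⟨(hut t).mul hB, mul_pos (hupos t) (inv_pos.mpr hApos)⟩
  · intro t
    filter_upwards [huni, hconf, hAev] with y hun hcf hAy
    obtain ⟨c, hc, hcs⟩ := hcf t
    have hN := hun.1 0 e he0
    have hNt := hun.1 t e he0
    have hNe : H t y e e = c * H 0 y e e := by rw [hcs]; simp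
    have e1 : ((u (t, y) * B y)⁻¹) ^ 2 = A y ^ 2 * (c * H 0 y e e) := by
      show (((√(H t y e e))⁻¹ * (A y)⁻¹)⁻¹) ^ 2 = _
      rw [mul_inv, inv_inv, inv_inv, mul_pow, Real.sq_sqrt hNt.le, hNe, mul_comm]
    rw [e1, smul_smul, hcs]
    congr 1
    field_simp
  · exact hc0.mul continuous_const
  · rw [integral_mul_const]
    show A 0 * (A 0)⁻¹ = 1
    exact mul_inv_cancel₀ hApos.ne'
  · intro v
    have key : ∀ t : ℝ × ℝ, fderiv ℝ (fun y => u (t, y) * B y) 0 v =
        u (t, 0) * fderiv ℝ B 0 v + B 0 * fderiv ℝ (fun y => u (t, y)) 0 v :=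
      fun t => (prod_rule (fun y => u (t, y)) B (hut t) hB).1 v
    have hcv : Continuous (fun t : ℝ × ℝ => fderiv ℝ (fun y => u (t, y)) 0 v) :=
      hc1.clm_apply continuous_const
    simp only [key]
    refine ⟨(hc0.mul continuous_const).add (continuous_const.mul hcv), ?_⟩
    rw [int_add (fun t => u (t, 0) * fderiv ℝ B 0 v)
        (fun t => B 0 * fderiv ℝ (fun y => u (t, y)) 0 v) (hint ℝ _ (hc0.mul continuous_const))
        (hint ℝ _ (continuous_const.mul hcv)), integral_mul_const, integral_const_mul]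
    have hi : ∫ t, fderiv ℝ (fun y => u (t, y)) 0 v ∂mu = fderiv ℝ A 0 v := by
      rw [hA1, ContinuousLinearMap.integral_apply (hint _ _ hc1)]
    rw [hi]
    have := pA1 v
    rw [hAB.fderiv_eq] at this
    simp at this
    show A 0 * fderiv ℝ B 0 v + B 0 * fderiv ℝ A 0 v = 0
    linarith
  · intro v v'
    have key : ∀ t : ℝ × ℝ, fderiv ℝ (fderiv ℝ (fun y => u (t, y) * B y)) 0 v v' =
        u (t, 0) * fderiv ℝ (fderiv ℝ B) 0 v v' +
        fderiv ℝ (fun y => u (t, y)) 0 v * fderiv ℝ B 0 v' +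
      (B 0 * fderiv ℝ (fderiv ℝ (fun y => u (t, y))) 0 v v' +
        fderiv ℝ B 0 v * fderiv ℝ (fun y => u (t, y)) 0 v') :=
      fun t => (prod_rule (fun y => u (t, y)) B (hut t) hB).2 v v'
    have hcv : ∀ v, Continuous (fun t : ℝ × ℝ => fderiv ℝ (fun y => u (t, y)) 0 v) :=
      fun v => hc1.clm_apply continuous_const
    have hcvv : Continuous (fun t : ℝ × ℝ => fderiv ℝ (fderiv ℝ (fun y => u (t, y))) 0 v v') :=
      (hc2.clm_apply continuous_const).clm_apply continuous_const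
    simp only [key]
    have c1 : Continuous (fun t : ℝ × ℝ => u (t, 0) * fderiv ℝ (fderiv ℝ B) 0 v v') :=
      hc0.mul continuous_const
    have c2 : Continuous (fun t : ℝ × ℝ => fderiv ℝ (fun y => u (t, y)) 0 v * fderiv ℝ B 0 v') :=
      (hcv v).mul continuous_const
    have c3 : Continuous (fun t : ℝ × ℝ =>
        B 0 * fderiv ℝ (fderiv ℝ (fun y => u (t, y))) 0 v v') := continuous_const.mul hcvv
    have c4 : Continuous (fun t : ℝ × ℝ =>
        fderiv ℝ B 0 v * fderiv ℝ (fun y => u (t, y)) 0 v') := continuous_const.mul (hcv v')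
    refine ⟨(c1.add c2).add (c3.add c4), ?_⟩
    rw [int_add (fun t => u (t, 0) * fderiv ℝ (fderiv ℝ B) 0 v v' +
        fderiv ℝ (fun y => u (t, y)) 0 v * fderiv ℝ B 0 v')
        (fun t => B 0 * fderiv ℝ (fderiv ℝ (fun y => u (t, y))) 0 v v' +
        fderiv ℝ B 0 v * fderiv ℝ (fun y => u (t, y)) 0 v')
        (hint ℝ _ (c1.add c2)) (hint ℝ _ (c3.add c4)),
      int_add _ _ (hint ℝ _ c1) (hint ℝ _ c2), int_add _ _ (hint ℝ _ c3) (hint ℝ _ c4),
      integral_mul_const, integral_mul_const, integral_const_mul, integral_const_mul]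
    have hi : ∀ v, ∫ t, fderiv ℝ (fun y => u (t, y)) 0 v ∂mu = fderiv ℝ A 0 v := by
      intro v
      rw [hA1, ContinuousLinearMap.integral_apply (hint _ _ hc1)]
    have hi2 : ∫ t, fderiv ℝ (fderiv ℝ (fun y => u (t, y))) 0 v v' ∂mu =
        fderiv ℝ (fderiv ℝ A) 0 v v' := by
      rw [hA2, ContinuousLinearMap.integral_apply (hint _ _ hc2),
        ContinuousLinearMap.integral_apply (hint _ _ (hc2.clm_apply continuous_const))]
    rw [hi, hi, hi2]
    have := pA2 v v'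
    have h0 : fderiv ℝ (fun y => A y * B y) =ᶠ[𝓝 (0 : Ed n)] fun _ => 0 := by
      have := hAB.fderiv (𝕜 := ℝ)
      filter_upwards [this] with y hy
      rw [hy]; simp
    rw [h0.fderiv_eq] at this
    simp at this
    show A 0 * fderiv ℝ (fderiv ℝ B) 0 v v' + fderiv ℝ A 0 v * fderiv ℝ B 0 v' +
      (B 0 * fderiv ℝ (fderiv ℝ A) 0 v v' + fderiv ℝ B 0 v * fderiv ℝ A 0 v') = 0
    linarith

end Pool.Agent.CBG.H30

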