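import Pool.Agent.CBG.StmtsB

set_option autoImplicit false
set_option maxSynthPendingDepth 3

open scoped Manifold ContDiff Topology
open Set Filter MeasureTheory

namespace Pool.Agent.CBG.H30

theorem thh (hchx : ChxStmt) (hpua : PuaStmt) (hpus : PusStmt) (hvfx : VfxStmt) (hpsi : PsiStmt)
    (hdtx : DtxStmt) (hloc : LocStmt) : ThhStmt := by
  intro n E _ _ _ _ Φ hΦ g L a p hodd haL ha0 hA hmin hexp hsec
  obtain ⟨ψ, X, hXinj, hψ0, hpar, heq, hvf⟩ := hpsi n E Φ hΦ p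
  subst hψ0
  obtain ⟨hD, -, hhh⟩ := hdtx n E Φ hΦ g ψ X hXinj hpar heq hvf
  obtain ⟨v1, -, -, v4, -, -⟩ := hvfx n E Φ hΦ
  obtain ⟨q1, q2, -, -, -⟩ := hpua n E g
  have hcomp0 : Φ 0 ∘ ψ = ψ := funext fun y => hΦ.zero _
  have hG : ContDiffAt ℝ ∞ (pull g ψ) 0 := hpus n E g (Ed n) ψ 0 hpar.1.self_of_nhds
  have hG2 : ContDiffAt ℝ 2 (pull g ψ) 0 := hG.of_le (by norm_cast)
  have hsymm : ∀ y, ∀ v w : Ed n, pull g ψ y v w = pull g ψ y w v := fun y v w =>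
    q1 (Ed n) ψ y v w
  have hpos : ∀ v : Ed n, v ≠ 0 → 0 < pull g ψ 0 v v := q2 ψ 0 hpar.2
  have pull_eq : ∀ (f : Ed n → E) (y v w : Ed n), pull g f y v w =
      g.inner (f y) (mfderiv 𝓘(ℝ, Ed n) (𝓡 n) f y v) (mfderiv 𝓘(ℝ, Ed n) (𝓡 n) f y w) :=
    fun _ _ _ _ => rfl
  have hne : (∞ : WithTop ℕ∞) ≠ 0 := by simp
  have hdψ : ∀ᶠ y in 𝓝 (0 : Ed n), MDifferentiableAt 𝓘(ℝ, Ed n) (𝓡 n) ψ y :=
    hpar.1.mono fun y hy => hy.mdifferentiableAt hne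
  have hdΦ : ∀ t q, MDifferentiableAt (𝓡 n) (𝓡 n) (Φ t) q := fun t q =>
    (v1 t q).mdifferentiableAt hne
  have hchain : ∀ t y, MDifferentiableAt 𝓘(ℝ, Ed n) (𝓡 n) ψ y → ∀ v w : Ed n,
      pull g (Φ t ∘ ψ) y v w = g.inner (Φ t (ψ y))
        (mfderiv (𝓡 n) (𝓡 n) (Φ t) (ψ y) (mfderiv 𝓘(ℝ, Ed n) (𝓡 n) ψ y v))
        (mfderiv (𝓡 n) (𝓡 n) (Φ t) (ψ y) (mfderiv 𝓘(ℝ, Ed n) (𝓡 n) ψ y w)) := by
    intro t y hy v w
    have hc := mfderiv_comp y (hdΦ t (ψ y)) hy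
    rw [pull_eq, hc]
    rfl
  have hshift : ∀ᶠ y in 𝓝 (0 : Ed n), ∀ s, pull g ψ (y + X s) = pull g (Φ s ∘ ψ) y := by
    filter_upwards [hD.shift] with y hy s
    have := hy 0 s
    rw [zero_add, hcomp0] at this
    exact this
  have hhh0 : ∀ᶠ y in 𝓝 (0 : Ed n), ∀ b, pull g ψ y (X b) (X b) = hh g Φ b b (ψ y) := by
    filter_upwards [hhh] with y hy b
    have := hy 0 b b
    rw [hcomp0, hΦ.zero] at this
    exact this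
  have hhor : ∀ y, (∀ b, (show Ed n from mfderiv 𝓘(ℝ, Ed n) (𝓡 n) ψ y (X b)) =
      vf (n := n) Φ b (ψ y)) → ∀ z : Ed n, (∀ b ∈ L, pull g ψ y (X b) z = 0) →
      Hor g Φ L (ψ y) (mfderiv 𝓘(ℝ, Ed n) (𝓡 n) ψ y z) := by
    intro y hy z hz b hb
    have := hz b hb
    rw [pull_eq] at this
    rw [← hy b]
    exact this
  have hA1 : ∀ᶠ y in 𝓝 (0 : Ed n), ∀ t ∈ L, ∀ z : Ed n, (∀ b ∈ L, pull g ψ y (X b) z = 0) →
      ∀ b ∈ L, pull g ψ (y + X t) (X b) z = 0 := by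
    filter_upwards [hshift, hdψ, hvf] with y h1 h2 h3 t ht z hz b hb
    rw [h1 t, hchain t y h2]
    have h4 := hA t ht (ψ y) _ (hhor y h3 z hz) b hb
    have h5 : (mfderiv (𝓡 n) (𝓡 n) (Φ t) (ψ y) (mfderiv 𝓘(ℝ, Ed n) (𝓡 n) ψ y (X b))) =
        (vf (n := n) Φ b (Φ t (ψ y)) : Ed n) := by
      have h6 := v4 t b (ψ y)
      have h7 : (mfderiv 𝓘(ℝ, Ed n) (𝓡 n) ψ y (X b)) = (vf (n := n) Φ b (ψ y) : Ed n) := h3 b
      rw [h7]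
      exact h6
    rw [h5]
    exact h4
  have hA2 : ∀ᶠ y in 𝓝 (0 : Ed n), ∀ b ∈ L,
      nsq b * pull g ψ 0 (X a) (X a) ≤ nsq a * pull g ψ y (X b) (X b) := by
    filter_upwards [hhh0] with y h1 b hb
    rw [h1 b, hhh0.self_of_nhds a]
    exact hmin (ψ y) b hb
  have hA3 : ∀ t ∈ L, ∀ z : Ed n, (∀ b ∈ L, pull g ψ 0 (X b) z = 0) →
      pull g ψ 0 z z ≤ pull g ψ (X t) z z := by
    intro t ht z hz
    have h1 := hshift.self_of_nhds t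
    rw [zero_add] at h1
    rw [h1, hchain t 0 hdψ.self_of_nhds, pull_eq]
    exact hexp t ht _ (hhor 0 hvf.self_of_nhds z hz)
  obtain ⟨z, hli, hcurv⟩ := hloc n (pull g ψ) X L a hG2 (Eventually.of_forall hsymm) hpos hXinj hodd
    haL ha0 hA1 hA2 hA3
  obtain ⟨α, hα⟩ := ((hchx.2 n (pull g ψ) 0 hpos) (X a) z).1
  obtain ⟨β, hβ⟩ := ((hchx.2 n (pull g ψ) 0 hpos) (X a) (X a)).1
  obtain ⟨γ, hγ⟩ := ((hchx.2 n (pull g ψ) 0 hpos) z z).1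
  have h1 := hcurv α β γ hα hβ hγ
  have h2 := hsec ψ 0 hpar (X a) z α β γ hli hα hβ hγ
  exact absurd h2 (not_lt.mpr h1)

end Pool.Agent.CBG.H30

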